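import Pool.Agent.H5.OR.Targets4

/-!
# Row QE of ors_modules: equivalence of the relators
-/

set_option autoImplicit false

open scoped Classical

namespace Pool.Agent.H85.ORS

open ORg

/-- the relator in a group -/
def rt {G : Type} [Group G] (x y : G) (m n : ℤ) : G := x ^ m * (y ^ n)⁻¹

theorem sgn {a b : ℤ} (hb : b ≠ 0) (h : |a| = |b|) : ∃ c : ℤ, (c = 1 ∨ c = -1) ∧ a = c * b := by
  rcases abs_eq_abs.1 h with h | h
  · exact ⟨1, Or.inl rfl, by rw [h]; ring⟩
  · exact ⟨-1, Or.inr rfl, by rw [h]; ring⟩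

theorem abs_mul_sign {e m : ℤ} (he : e = 1 ∨ e = -1) : |e * m| = |m| := by
  rcases he with rfl | rfl
  · rw [one_mul]
  · rw [neg_one_mul, abs_neg]

theorem rt_key {G : Type} [Group G] (A : Bool → G) (τ : Bool ≃ Bool) (e : Bool → ℤ)
    (m n m' n' : ℤ) (hm : m ≠ 0) (hn : n ≠ 0) (he : ∀ i, e i = 1 ∨ e i = -1)
    (h : Et τ e m n m' n') :
    ∃ g, g * rt (A (τ true) ^ e true) (A (τ false) ^ e false) m n * g⁻¹ =
        rt (A true) (A false) m' n' ∨
      g * rt (A (τ true) ^ e true) (A (τ false) ^ e false) m n * g⁻¹ =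
        (rt (A true) (A false) m' n')⁻¹ := by
  unfold rt
  rw [← zpow_mul, ← zpow_mul]
  rcases h with ⟨rfl, h1, h2, h3⟩ | ⟨rfl, h1, h2, h3⟩
  · have hm' : m' ≠ 0 := by
      intro h
      rw [h, abs_zero] at h1
      exact hm (abs_eq_zero.1 h1)
    have hn' : n' ≠ 0 := by
      intro h
      rw [h, abs_zero] at h2
      exact hn (abs_eq_zero.1 h2)
    obtain ⟨c, hc, h4⟩ := sgn hm' ((abs_mul_sign (he true)).trans h1)
    obtain ⟨c', hc', h5⟩ := sgn hn' ((abs_mul_sign (he false)).trans h2)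
    have h6 : c = c' := by
      have h7 : c * (m' * n') = c' * (m' * n') := by
        calc c * (m' * n') = (c * m') * n' := by ring
          _ = e true * m * n' := by rw [← h4]
          _ = e false * n * m' := h3
          _ = (c' * n') * m' := by rw [← h5]
          _ = c' * (m' * n') := by ring
      exact mul_right_cancel₀ (mul_ne_zero hm' hn') h7
    subst h6
    rw [Equiv.refl_apply, Equiv.refl_apply, h4, h5]
    rcases hc with rfl | rfl
    · exact ⟨1, Or.inl (by group)⟩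
    · exact ⟨A true ^ m', Or.inr (by group)⟩
  · have hm' : m' ≠ 0 := by
      intro h
      rw [h, abs_zero] at h2
      exact hn (abs_eq_zero.1 h2)
    have hn' : n' ≠ 0 := by
      intro h
      rw [h, abs_zero] at h1
      exact hm (abs_eq_zero.1 h1)
    obtain ⟨c, hc, h4⟩ := sgn hn' ((abs_mul_sign (he true)).trans h1)
    obtain ⟨c', hc', h5⟩ := sgn hm' ((abs_mul_sign (he false)).trans h2)
    have h6 : c = c' := by
      have h7 : c * (m' * n') = c' * (m' * n') := by
        calc c * (m' * n') = (c * n') * m' := by ring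
          _ = e true * m * m' := by rw [← h4]
          _ = e false * n * n' := h3
          _ = (c' * m') * n' := by rw [← h5]
          _ = c' * (m' * n') := by ring
      exact mul_right_cancel₀ (mul_ne_zero hm' hn') h7
    subst h6
    rw [Equiv.swap_apply_left, Equiv.swap_apply_right, h4, h5]
    rcases hc with rfl | rfl
    · exact ⟨1, Or.inr (by group)⟩
    · exact ⟨A false ^ n', Or.inl (by group)⟩

theorem subW_relT {X : Bool → Type} (w : ∀ i, FreeGroup (X i)) (m n : ℤ) :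
    subW w (relT m n) =
      rt (FreeGroup.map (fun x => (Sum.inl ⟨true, x⟩ : (Σ i, X i) ⊕ Empty)) (w true))
        (FreeGroup.map (fun x => (Sum.inl ⟨false, x⟩ : (Σ i, X i) ⊕ Empty)) (w false)) m n := by
  unfold relT rt
  rw [map_mul, map_inv, map_zpow, map_zpow]
  unfold subW
  rw [FreeGroup.lift_apply_of, FreeGroup.lift_apply_of]

theorem map_rt {G H : Type} [Group G] [Group H] (f : G →* H) (x y : G) (m n : ℤ) :
    f (rt x y m n) = rt (f x) (f y) m n := by
  unfold rt
  rw [map_mul, map_inv, map_zpow, map_zpow]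

theorem pf_QE (TG : T_TG) : T_QE := by
  intro X Z X' Z' w w' m n m' n' τ e hm hn hZ he hα hEt
  obtain ⟨ez⟩ := hZ
  choose α hα using hα
  obtain ⟨θ₀, hθ₀⟩ := TG Bool Bool X Z X' Z' τ α ez
  obtain ⟨A, hA⟩ : ∃ A : Bool → FreeGroup ((Σ i, X' i ⊕ Z' i) ⊕ Empty), ∀ i, A i =
      FreeGroup.map (fun x : X' i ⊕ Z' i => (Sum.inl ⟨i, x⟩ : (Σ i, X' i ⊕ Z' i) ⊕ Empty))
        (fl (w' i)) := ⟨_, fun _ => rfl⟩
  have h1 : ∀ i, θ₀ (FreeGroup.map (fun z : X i ⊕ Z i =>
      (Sum.inl ⟨i, z⟩ : (Σ i, X i ⊕ Z i) ⊕ Empty)) (fl (w i))) = A (τ i) ^ e i := by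
    intro i
    rw [hθ₀ i (w i), hα i, map_zpow, map_zpow, hA]
  have h2 : θ₀ (subW (X := fun i => X i ⊕ Z i) (fun i => fl (w i)) (relT m n)) =
      rt (A (τ true) ^ e true) (A (τ false) ^ e false) m n := by
    rw [subW_relT, ← h1, ← h1]
    exact map_rt θ₀.toMonoidHom _ _ m n
  have h3 : subW (X := fun i => X' i ⊕ Z' i) (fun i => fl (w' i)) (relT m' n') =
      rt (A true) (A false) m' n' := by
    rw [subW_relT, hA, hA]
  obtain ⟨g, hg⟩ := rt_key A τ e m n m' n' hm hn he hEt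
  refine ⟨θ₀.trans (MulAut.conj g), ?_⟩
  rw [MulEquiv.trans_apply, h2, h3, MulAut.conj_apply]
  exact hg

end Pool.Agent.H85.ORS
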